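import Mathlib

/-!
# Positivity of the convolution sums of generalized Bernoulli polynomials

The polynomial `B_n^{(n)}` has `n` real zeros, one in each interval `(k, k + 1)`, `0 ≤ k < n`,
because `B_n^{(n)}(x)` is the integral of `(t - 1) ⋯ (t - n)` over `[x, x + 1]`.  The sums
`α_{n,k}(x)` and `β_{n,k}(x)` are elementary symmetric polynomials of the squares of the
differences of `x` and the zeros.
-/

set_option autoImplicit false

namespace Pool.Agent.Results.MP_6eafb7_an.StrictPositivity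

open PowerSeries Finset

/-- The power series `(e^t - 1) / t = ∑ t^k / (k + 1)!`. -/
noncomputable def E1 : ℝ⟦X⟧ := PowerSeries.mk fun k => 1 / ((k + 1).factorial : ℝ)

/-- The generalized Bernoulli polynomial `B_m^{(a)}(x)`: `m!` times the coefficient of `t^m` in
`(t / (e^t - 1))^a e^{x t}`. -/
noncomputable def nb (a m : ℕ) (x : ℝ) : ℝ :=
  (m.factorial : ℝ) * PowerSeries.coeff m (E1⁻¹ ^ a * PowerSeries.rescale x (PowerSeries.exp ℝ))

/-- `α_{n,k}(x)`, for `2 k ≤ n`. -/
noncomputable def alpha (n k : ℕ) (x : ℝ) : ℝ :=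
  (-1) ^ k * ∑ j ∈ range (2 * k + 1), (-1) ^ j * (n.choose j : ℝ) * (n.choose (2 * k - j) : ℝ) *
    nb n (n - j) x * nb n (n + j - 2 * k) x

/-- `β_{n,k}(x)`. -/
noncomputable def beta (n k : ℕ) (x : ℝ) : ℝ :=
  (-1) ^ k * ∑ j ∈ range (2 * k + 1), (-1) ^ j * (n.choose j : ℝ) * (n.choose (2 * k - j) : ℝ) *
    nb n j x * nb n (2 * k - j) x

/-! ### The generating function -/

noncomputable def S : ℝ⟦X⟧ := E1⁻¹

noncomputable def R (x : ℝ) : ℝ⟦X⟧ := PowerSeries.rescale x (PowerSeries.exp ℝ)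

noncomputable def G (a : ℕ) (x : ℝ) : ℝ⟦X⟧ := S ^ a * R x

lemma nb_eq (a m : ℕ) (x : ℝ) : nb a m x = (m.factorial : ℝ) * coeff m (G a x) := rfl

lemma E1_cc : constantCoeff E1 = 1 := by
  unfold E1
  rw [← coeff_zero_eq_constantCoeff_apply, coeff_mk]
  simp

lemma S_cc : constantCoeff S = 1 := by
  unfold S
  rw [PowerSeries.constantCoeff_inv, E1_cc, inv_one]

lemma E1_mul_S : E1 * S = 1 := by
  unfold S
  exact PowerSeries.mul_inv_cancel _ (by rw [E1_cc]; exact one_ne_zero)

lemma X_mul_E1 : X * E1 = PowerSeries.exp ℝ - 1 := by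
  ext n
  rcases n with _ | n
  · simp
  · rw [coeff_succ_X_mul, map_sub, coeff_exp, coeff_one, E1, coeff_mk]
    simp

lemma S_mul_exp : S * (PowerSeries.exp ℝ - 1) = X := by
  rw [← X_mul_E1]
  calc S * (X * E1) = X * (E1 * S) := by ring
    _ = X := by rw [E1_mul_S, mul_one]

lemma coeff_R (x : ℝ) (n : ℕ) : coeff n (R x) = x ^ n / (n.factorial : ℝ) := by
  unfold R
  rw [coeff_rescale, coeff_exp]
  simp [div_eq_mul_inv]

lemma R_cc (x : ℝ) : constantCoeff (R x) = 1 := by
  rw [← coeff_zero_eq_constantCoeff_apply, coeff_R]; simp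

lemma R_add (x y : ℝ) : R (x + y) = R x * R y := (exp_mul_exp_eq_exp_add x y).symm

lemma R_one : R 1 = PowerSeries.exp ℝ := by
  ext n; rw [coeff_R, coeff_exp]; simp

lemma nb_zero (a : ℕ) (x : ℝ) : nb a 0 x = 1 := by
  rw [nb_eq, coeff_zero_eq_constantCoeff_apply]
  unfold G
  rw [map_mul, map_pow, S_cc, R_cc]
  simp

/-- translation -/
lemma nb_add (a m : ℕ) (x y : ℝ) :
    nb a m (x + y) = ∑ r ∈ range (m + 1), (m.choose r : ℝ) * y ^ r * nb a (m - r) x := by
  have h : G a (x + y) = R y * G a x := by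
    unfold G; rw [R_add]; ring
  rw [nb_eq, h, coeff_mul, Nat.sum_antidiagonal_eq_sum_range_succ_mk, mul_sum]
  refine sum_congr rfl fun r hr => ?_
  have hr' : r ≤ m := by rw [mem_range] at hr; omega
  rw [coeff_R, nb_eq, Nat.cast_choose ℝ hr']
  have h1 : (r.factorial : ℝ) ≠ 0 := by positivity
  have h2 : ((m - r).factorial : ℝ) ≠ 0 := by positivity
  field_simp

/-- difference -/
lemma nb_diff (a m : ℕ) (x : ℝ) :
    nb (a + 1) (m + 1) (x + 1) - nb (a + 1) (m + 1) x = (m + 1 : ℝ) * nb a m x := by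
  have h : G (a + 1) (x + 1) - G (a + 1) x = X * G a x := by
    unfold G
    rw [R_add, R_one, pow_succ]
    calc S ^ a * S * (R x * PowerSeries.exp ℝ) - S ^ a * S * R x
        = S ^ a * R x * (S * (PowerSeries.exp ℝ - 1)) := by ring
      _ = X * (S ^ a * R x) := by rw [S_mul_exp]; ring
  rw [nb_eq, nb_eq, nb_eq, ← mul_sub, ← map_sub, h, coeff_succ_X_mul, Nat.factorial_succ]
  push_cast
  ring

lemma X_mul_dS : X * d⁄dX ℝ S = S - S * X - S ^ 2 := by
  have h := congrArg (d⁄dX ℝ) S_mul_exp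
  rw [Derivation.leibniz, derivative_X, map_sub, derivative_exp, derivative_one, sub_zero,
    smul_eq_mul, smul_eq_mul] at h
  have h2 : S * (S * PowerSeries.exp ℝ) = S * X + S ^ 2 := by
    calc S * (S * PowerSeries.exp ℝ) = S * (S * (PowerSeries.exp ℝ - 1)) + S ^ 2 := by ring
      _ = S * X + S ^ 2 := by rw [S_mul_exp]
  calc X * d⁄dX ℝ S = (S * (PowerSeries.exp ℝ - 1)) * d⁄dX ℝ S := by rw [S_mul_exp]
    _ = S * (S * PowerSeries.exp ℝ + (PowerSeries.exp ℝ - 1) * d⁄dX ℝ S)
        - S * (S * PowerSeries.exp ℝ) := by ring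
    _ = S - S * X - S ^ 2 := by rw [h, h2]; ring

lemma dR (x : ℝ) : d⁄dX ℝ (R x) = C x * R x := by
  ext n
  rw [coeff_derivative, coeff_C_mul, coeff_R, coeff_R, Nat.factorial_succ]
  have h1 : (n.factorial : ℝ) ≠ 0 := by positivity
  push_cast
  field_simp
  ring

lemma X_mul_dG (a : ℕ) (x : ℝ) :
    X * d⁄dX ℝ (G (a + 1) x) = C ((a : ℝ) + 1) * G (a + 1) x - C ((a : ℝ) + 1) * (X * G (a + 1) x)
      - C ((a : ℝ) + 1) * G (a + 2) x + C x * (X * G (a + 1) x) := by
  unfold G
  rw [Derivation.leibniz, smul_eq_mul, smul_eq_mul, dR, derivative_pow]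
  have h : X * (((a + 1 : ℕ) : ℝ⟦X⟧) * S ^ (a + 1 - 1) * d⁄dX ℝ S)
      = C ((a : ℝ) + 1) * S ^ a * (S - S * X - S ^ 2) := by
    rw [← X_mul_dS, Nat.add_sub_cancel]
    have : (((a + 1 : ℕ) : ℝ⟦X⟧)) = C ((a : ℝ) + 1) := by
      rw [map_add, map_one]; push_cast; rfl
    rw [this]; ring
  calc X * (S ^ (a + 1) * (C x * R x) + R x * (((a + 1 : ℕ) : ℝ⟦X⟧) * S ^ (a + 1 - 1) * d⁄dX ℝ S))
      = X * (S ^ (a + 1) * (C x * R x)) + R x * (X * (((a + 1 : ℕ) : ℝ⟦X⟧) * S ^ (a + 1 - 1) * d⁄dX ℝ S)) := by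
        ring
    _ = _ := by rw [h]; ring

/-- recurrence -/
lemma nb_rec (n : ℕ) (x : ℝ) : nb (n + 2) (n + 1) x = (x - (n + 1)) * nb (n + 1) n x := by
  have h := congrArg (coeff (n + 1)) (X_mul_dG n x)
  obtain ⟨c, hc⟩ : ∃ c : ℝ, c = (n : ℝ) + 1 := ⟨_, rfl⟩
  rw [coeff_succ_X_mul, coeff_derivative, ← hc] at h
  simp only [map_add, map_sub, coeff_C_mul, coeff_succ_X_mul] at h
  rw [hc] at h
  rw [nb_eq, nb_eq, Nat.factorial_succ]
  have hn : ((n : ℝ) + 1) ≠ 0 := by positivity
  push_cast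
  have h3 : ((n : ℝ) + 1) * coeff (n + 1) (G (n + 2) x) = (x - (n + 1)) * coeff n (G (n + 1) x) := by
    linarith
  calc ((n : ℝ) + 1) * (n.factorial : ℝ) * coeff (n + 1) (G (n + 2) x)
      = (n.factorial : ℝ) * (((n : ℝ) + 1) * coeff (n + 1) (G (n + 2) x)) := by ring
    _ = _ := by rw [h3]; ring

lemma nb_prod (n : ℕ) (x : ℝ) : nb (n + 1) n x = ∏ j ∈ range n, (x - ((j : ℝ) + 1)) := by
  induction n with
  | zero => rw [nb_zero]; simp
  | succ n ih => rw [nb_rec, ih, prod_range_succ]; ring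

/-- derivative in `x` -/
lemma nb_deriv (a m : ℕ) (x : ℝ) :
    HasDerivAt (fun y => nb a (m + 1) y) ((m + 1 : ℝ) * nb a m x) x := by
  have h1 : ∀ y : ℝ, nb a (m + 1) y = ∑ r ∈ range (m + 2),
      (((m + 1).choose r : ℝ) * y ^ r * nb a (m + 1 - r) 0) := by
    intro y
    have := nb_add a (m + 1) 0 y
    rwa [zero_add] at this
  have h2 : nb a m x = ∑ r ∈ range (m + 1), ((m.choose r : ℝ) * x ^ r * nb a (m - r) 0) := by
    have := nb_add a m 0 x
    rwa [zero_add] at this
  have h3 : (fun y => nb a (m + 1) y) = fun y => ∑ r ∈ range (m + 2),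
      (((m + 1).choose r : ℝ) * y ^ r * nb a (m + 1 - r) 0) := funext h1
  rw [h3, h2, mul_sum]
  have h4 : HasDerivAt (fun y : ℝ => ∑ r ∈ range (m + 2),
      (((m + 1).choose r : ℝ) * y ^ r * nb a (m + 1 - r) 0))
      (∑ r ∈ range (m + 2), (((m + 1).choose r : ℝ) * ((r : ℝ) * x ^ (r - 1)) * nb a (m + 1 - r) 0)) x := by
    apply HasDerivAt.fun_sum
    intro r _
    exact ((hasDerivAt_pow r x).const_mul _).mul_const _
  convert h4 using 1
  rw [sum_range_succ' _ (m + 1)]
  simp only [Nat.cast_zero, zero_mul, mul_zero, add_zero]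
  refine sum_congr rfl fun r hr => ?_
  have hc : ((m + 1 : ℕ) : ℝ) * (m.choose r : ℝ) = ((m + 1).choose (r + 1) : ℝ) * ((r + 1 : ℕ) : ℝ) := by
    exact_mod_cast Nat.add_one_mul_choose_eq m r
  rw [Nat.add_sub_cancel, Nat.add_sub_add_right]
  push_cast at hc ⊢
  calc ((m : ℝ) + 1) * ((m.choose r : ℝ) * x ^ r * nb a (m - r) 0)
      = (((m : ℝ) + 1) * (m.choose r : ℝ)) * (x ^ r * nb a (m - r) 0) := by ring
    _ = _ := by rw [hc]; ring

/-! ### The zeros of `B_n^{(n)}` -/

/-- `B_n^{(n)}(k)` is a value of `(c - 1) ⋯ (c - n)` with `k < c < k + 1`. -/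
lemma nb_mvt (n : ℕ) (y : ℝ) : ∃ c, y < c ∧ c < y + 1 ∧
    nb n n y = ∏ j ∈ range n, (c - ((j : ℝ) + 1)) := by
  have hcont : ContinuousOn (fun z => nb (n + 1) (n + 1) z) (Set.Icc y (y + 1)) :=
    fun z _ => (nb_deriv (n + 1) n z).continuousAt.continuousWithinAt
  obtain ⟨c, hc, hc'⟩ := exists_hasDerivAt_eq_slope (fun z => nb (n + 1) (n + 1) z)
    (fun z => ((n : ℝ) + 1) * nb (n + 1) n z) (by linarith : y < y + 1) hcont
    (fun z _ => nb_deriv (n + 1) n z)
  refine ⟨c, hc.1, hc.2, ?_⟩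
  have h1 := nb_diff n n y
  have hn : ((n : ℝ) + 1) ≠ 0 := by positivity
  rw [show y + 1 - y = 1 by ring, div_one, h1] at hc'
  have := mul_left_cancel₀ hn hc'
  rw [← this, nb_prod]

lemma prod_sign (n k : ℕ) (hk : k ≤ n) (c : ℝ) (h1 : (k : ℝ) < c) (h2 : c < k + 1) :
    0 < (-1) ^ (n - k) * ∏ j ∈ range n, (c - ((j : ℝ) + 1)) := by
  rw [← prod_range_mul_prod_Ico _ hk]
  have e1 : 0 < ∏ j ∈ range k, (c - ((j : ℝ) + 1)) := by
    apply prod_pos
    intro j hj
    rw [mem_range] at hj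
    have : ((j : ℝ) + 1) ≤ k := by exact_mod_cast hj
    linarith
  have e2 : (-1) ^ (n - k) * ∏ j ∈ Ico k n, (c - ((j : ℝ) + 1)) =
      ∏ j ∈ Ico k n, (((j : ℝ) + 1) - c) := by
    rw [← Nat.card_Ico k n, ← prod_const, ← prod_mul_distrib]
    refine prod_congr rfl fun j _ => by ring
  have e3 : 0 < ∏ j ∈ Ico k n, (((j : ℝ) + 1) - c) := by
    apply prod_pos
    intro j hj
    rw [mem_Ico] at hj
    have : (k : ℝ) ≤ j := by exact_mod_cast hj.1
    linarith
  calc (0 : ℝ) < (∏ j ∈ range k, (c - ((j : ℝ) + 1))) * ∏ j ∈ Ico k n, (((j : ℝ) + 1) - c) :=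
        mul_pos e1 e3
    _ = _ := by rw [← e2]; ring

lemma nb_sign (n k : ℕ) (hk : k ≤ n) : 0 < (-1) ^ (n - k) * nb n n k := by
  obtain ⟨c, h1, h2, h3⟩ := nb_mvt n k
  rw [h3]
  exact prod_sign n k hk c h1 h2

lemma nb_continuous (n : ℕ) : Continuous fun y => nb n n y := by
  rcases n with _ | n
  · have : (fun y => nb 0 0 y) = fun _ => (1 : ℝ) := funext fun y => nb_zero 0 y
    rw [this]; exact continuous_const
  · exact continuous_iff_continuousAt.2 fun y => (nb_deriv (n + 1) n y).continuousAt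

lemma exists_root (n k : ℕ) (hk : k < n) : ∃ r : ℝ, (k : ℝ) < r ∧ r < k + 1 ∧ nb n n r = 0 := by
  have h1 := nb_sign n k hk.le
  have h2 := nb_sign n (k + 1) hk
  have hcont : ContinuousOn (fun y => (-1) ^ (n - k) * nb n n y) (Set.Icc (k : ℝ) (k + 1)) :=
    ((nb_continuous n).const_mul _).continuousOn
  have h2' : (-1) ^ (n - k) * nb n n ((k : ℝ) + 1) < 0 := by
    have e : n - k = (n - (k + 1)) + 1 := by omega
    rw [e, pow_succ]
    push_cast at h2
    linarith
  have h3 := intermediate_value_Ioo' (by linarith : (k : ℝ) ≤ k + 1) hcont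
  obtain ⟨r, hr, hr'⟩ := h3 ⟨h2', h1⟩
  refine ⟨r, hr.1, hr.2, ?_⟩
  have : ((-1 : ℝ)) ^ (n - k) ≠ 0 := pow_ne_zero _ (by norm_num)
  exact (mul_eq_zero.1 hr').resolve_left this

/-! ### The polynomial `Y ↦ B_n^{(n)}(x + Y)` -/

noncomputable def q (n : ℕ) (x : ℝ) : Polynomial ℝ :=
  ∑ r ∈ range (n + 1), Polynomial.monomial r ((n.choose r : ℝ) * nb n (n - r) x)

lemma q_eval (n : ℕ) (x y : ℝ) : (q n x).eval y = nb n n (x + y) := by
  unfold q
  rw [Polynomial.eval_finsetSum, nb_add]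
  refine sum_congr rfl fun r _ => ?_
  rw [Polynomial.eval_monomial]; ring

lemma q_coeff (n : ℕ) (x : ℝ) (r : ℕ) :
    (q n x).coeff r = (n.choose r : ℝ) * nb n (n - r) x := by
  unfold q
  rw [Polynomial.finsetSum_coeff]
  simp only [Polynomial.coeff_monomial]
  rw [sum_ite_eq' (range (n + 1)) r]
  split_ifs with h
  · rfl
  · rw [mem_range, not_lt] at h
    rw [Nat.choose_eq_zero_of_lt (by omega)]; simp

lemma q_natDegree_le (n : ℕ) (x : ℝ) : (q n x).natDegree ≤ n := by
  rw [Polynomial.natDegree_le_iff_coeff_eq_zero]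
  intro r hr
  rw [q_coeff, Nat.choose_eq_zero_of_lt hr]; simp

lemma q_monic (n : ℕ) (x : ℝ) : (q n x).Monic := by
  apply Polynomial.monic_of_natDegree_le_of_coeff_eq_one n (q_natDegree_le n x)
  rw [q_coeff, Nat.sub_self, nb_zero]; simp

lemma q_natDegree (n : ℕ) (x : ℝ) : (q n x).natDegree = n := by
  apply le_antisymm (q_natDegree_le n x)
  apply Polynomial.le_natDegree_of_ne_zero
  rw [q_coeff, Nat.sub_self, nb_zero]; simp

lemma q_prod (n : ℕ) (x : ℝ) : ∃ s : ℕ → ℝ,
    (∀ i ∈ range n, ∀ j ∈ range n, s i = s j → i = j) ∧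
    q n x = ∏ k ∈ range n, (Polynomial.X - Polynomial.C (s k)) := by
  have hex : ∀ k : ℕ, ∃ r : ℝ, k < n → ((k : ℝ) < r ∧ r < k + 1 ∧ nb n n r = 0) := by
    intro k
    by_cases hk : k < n
    · obtain ⟨r, hr⟩ := exists_root n k hk
      exact ⟨r, fun _ => hr⟩
    · exact ⟨0, fun h => absurd h hk⟩
  choose r hr using hex
  have hinj : ∀ i ∈ range n, ∀ j ∈ range n, r i - x = r j - x → i = j := by
    intro i hi j hj hij
    rw [mem_range] at hi hj
    obtain ⟨h1, h2, _⟩ := hr i hi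
    obtain ⟨h3, h4, _⟩ := hr j hj
    have h5 : (i : ℝ) < j + 1 := by linarith
    have h6 : (j : ℝ) < i + 1 := by linarith
    have h5' : i < j + 1 := by exact_mod_cast h5
    have h6' : j < i + 1 := by exact_mod_cast h6
    omega
  refine ⟨fun k => r k - x, hinj, ?_⟩
  have hm : (∏ k ∈ range n, (Polynomial.X - Polynomial.C (r k - x))).Monic :=
    Polynomial.monic_prod_of_monic _ _ fun k _ => Polynomial.monic_X_sub_C _
  have hd : (∏ k ∈ range n, (Polynomial.X - Polynomial.C (r k - x))).natDegree = n := by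
    rw [Polynomial.natDegree_prod_of_monic _ _ fun k _ => Polynomial.monic_X_sub_C _]
    simp only [Polynomial.natDegree_X_sub_C, sum_const, card_range, smul_eq_mul, mul_one]
  apply Polynomial.eq_of_degree_sub_lt_of_eval_index_eq (s := range n) (v := fun k => r k - x)
  · intro i hi j hj hij
    exact hinj i (by simpa using hi) j (by simpa using hj) hij
  · have h1 : (q n x).degree = (n : WithBot ℕ) := by
      rw [Polynomial.degree_eq_natDegree (q_monic n x).ne_zero, q_natDegree]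
    have h2 : (∏ k ∈ range n, (Polynomial.X - Polynomial.C (r k - x))).degree =
        (n : WithBot ℕ) := by
      rw [Polynomial.degree_eq_natDegree hm.ne_zero, hd]
    rw [card_range, ← h1]
    exact Polynomial.degree_sub_lt_left (by rw [h1, h2]) (q_monic n x).ne_zero
      (by rw [(q_monic n x).leadingCoeff, hm.leadingCoeff])
  · intro i hi
    rw [q_eval, Polynomial.eval_prod, prod_eq_zero hi (by simp)]
    rw [mem_range] at hi
    rw [← (hr i hi).2.2]
    congr 1
    ring

/-! ### Coefficients of products -/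

lemma pos_coeff (t : Finset ℕ) (a : ℕ → ℝ) (h : ∀ i ∈ t, 0 < a i) :
    (∀ k, 0 ≤ (∏ i ∈ t, (Polynomial.X + Polynomial.C (a i))).coeff k) ∧
    ∀ k ≤ t.card, 0 < (∏ i ∈ t, (Polynomial.X + Polynomial.C (a i))).coeff k := by
  classical
  induction t using Finset.induction_on with
  | empty =>
    constructor
    · intro k
      rw [prod_empty, Polynomial.coeff_one]
      split_ifs <;> norm_num
    · intro k hk
      rw [card_empty, Nat.le_zero] at hk
      rw [prod_empty, hk]; simp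
  | insert i t hi ih =>
    have ih' := ih (fun j hj => h j (mem_insert_of_mem hj))
    have ha : 0 < a i := h i (mem_insert_self i t)
    rw [prod_insert hi, add_mul]
    constructor
    · intro k
      rw [Polynomial.coeff_add, Polynomial.coeff_C_mul]
      rcases k with _ | k
      · rw [Polynomial.coeff_X_mul_zero, zero_add]
        exact mul_nonneg ha.le (ih'.1 0)
      · rw [Polynomial.coeff_X_mul]
        exact add_nonneg (ih'.1 k) (mul_nonneg ha.le (ih'.1 _))
    · intro k hk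
      rw [card_insert_of_notMem hi] at hk
      rw [Polynomial.coeff_add, Polynomial.coeff_C_mul]
      rcases k with _ | k
      · rw [Polynomial.coeff_X_mul_zero, zero_add]
        exact mul_pos ha (ih'.2 0 (Nat.zero_le _))
      · rw [Polynomial.coeff_X_mul]
        exact add_pos_of_pos_of_nonneg (ih'.2 k (by omega)) (mul_nonneg ha.le (ih'.1 _))

lemma pos_coeff' (t : Finset ℕ) (a : ℕ → ℝ) (h : ∀ i ∈ t, 0 ≤ a i)
    (h0 : ∀ i ∈ t, ∀ j ∈ t, a i = 0 → a j = 0 → i = j) (k : ℕ) (hk : 1 ≤ k) (hk' : k ≤ t.card) :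
    0 < (∏ i ∈ t, (Polynomial.X + Polynomial.C (a i))).coeff k := by
  classical
  by_cases hex : ∃ i ∈ t, a i = 0
  · obtain ⟨i, hi, hai⟩ := hex
    rw [← mul_prod_erase t _ hi, hai, map_zero, add_zero]
    obtain ⟨m, rfl⟩ : ∃ m, k = m + 1 := ⟨k - 1, by omega⟩
    rw [Polynomial.coeff_X_mul]
    apply (pos_coeff (t.erase i) a _).2
    · rw [card_erase_of_mem hi]; omega
    · intro j hj
      rw [mem_erase] at hj
      rcases (h j hj.2).lt_or_eq with h1 | h1
      · exact h1
      · exact absurd (h0 j hj.2 i hi h1.symm hai) hj.1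
  · push Not at hex
    exact (pos_coeff t a fun i hi => lt_of_le_of_ne (h i hi) (Ne.symm (hex i hi))).2 k hk'

/-- The convolution sums of the coefficients of `∏ (Y - s_i)`. -/
lemma conv (n : ℕ) (s : ℕ → ℝ) (Q : Polynomial ℝ)
    (hQ : Q = ∏ k ∈ range n, (Polynomial.X - Polynomial.C (s k))) (m : ℕ) :
    ∑ j ∈ range (2 * m + 1), (-1) ^ j * Q.coeff j * Q.coeff (2 * m - j) =
      (-1) ^ m * (∏ i ∈ range n, (Polynomial.X + Polynomial.C (s i ^ 2))).coeff m := by
  have h1 : (Q.comp (Polynomial.C (-1) * Polynomial.X)) * Q = Polynomial.expand ℝ 2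
      ((∏ i ∈ range n, (Polynomial.X + Polynomial.C (s i ^ 2))).comp
        (Polynomial.C (-1) * Polynomial.X)) := by
    rw [hQ, Polynomial.prod_comp, Polynomial.prod_comp, map_prod, ← prod_mul_distrib]
    refine prod_congr rfl fun i _ => ?_
    rw [Polynomial.sub_comp, Polynomial.add_comp, Polynomial.X_comp, Polynomial.C_comp,
      Polynomial.C_comp, map_add, map_mul, Polynomial.expand_C, Polynomial.expand_C,
      Polynomial.expand_X, map_neg, map_one, map_pow]
    ring
  have h2 := congrArg (fun P => Polynomial.coeff P (2 * m)) h1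
  rw [Polynomial.coeff_expand_mul' two_pos, Polynomial.comp_C_mul_X_coeff, Polynomial.coeff_mul,
    Nat.sum_antidiagonal_eq_sum_range_succ_mk] at h2
  simp only [Polynomial.comp_C_mul_X_coeff] at h2
  rw [mul_comm ((-1 : ℝ) ^ m), ← h2]
  refine sum_congr rfl fun j _ => by ring

/-- **Theorem.** For every `n ≥ 1` and every real `x`, all the numbers `α_{n,k}(x)`,
`1 ≤ 2 k ≤ n`, and `β_{n,k}(x)`, `0 ≤ 2 k ≤ n - 1`, are positive. -/
theorem result (n : ℕ) (hn : 1 ≤ n) (x : ℝ) :
    (∀ k : ℕ, 1 ≤ 2 * k → 2 * k ≤ n → 0 < alpha n k x) ∧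
    (∀ k : ℕ, 2 * k ≤ n - 1 → 0 < beta n k x) := by
  obtain ⟨s, hs, hq⟩ := q_prod n x
  have hW : ∀ k : ℕ, 1 ≤ k → k ≤ n →
      0 < (∏ i ∈ range n, (Polynomial.X + Polynomial.C (s i ^ 2))).coeff k := by
    intro k hk hk'
    apply pos_coeff' (range n) (fun i => s i ^ 2) (fun i _ => sq_nonneg _) _ k hk
      (by rw [card_range]; exact hk')
    intro i hi j hj h1 h2
    apply hs i hi j hj
    rw [pow_eq_zero_iff two_ne_zero] at h1 h2
    rw [h1, h2]
  constructor
  · intro k hk hk'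
    have h1 := conv n s (q n x) hq k
    have h2 : alpha n k x = (-1) ^ k *
        ∑ j ∈ range (2 * k + 1), (-1) ^ j * (q n x).coeff j * (q n x).coeff (2 * k - j) := by
      unfold alpha
      congr 1
      refine sum_congr rfl fun j hj => ?_
      rw [mem_range] at hj
      rw [q_coeff, q_coeff, show n - (2 * k - j) = n + j - 2 * k by omega]
      ring
    rw [h2, h1, ← mul_assoc, ← mul_pow, neg_one_mul, neg_neg, one_pow, one_mul]
    exact hW k (by omega) (by omega)
  · intro k hk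
    have h1 := conv n s (q n x) hq (n - k)
    have h2 : ∑ j ∈ range (2 * (n - k) + 1),
        (-1) ^ j * (q n x).coeff j * (q n x).coeff (2 * (n - k) - j) =
        ∑ j ∈ range (2 * k + 1),
          (-1) ^ (n - j) * (q n x).coeff (n - j) * (q n x).coeff (2 * (n - k) - (n - j)) := by
      have himg : ∑ j ∈ range (2 * k + 1),
          (-1) ^ (n - j) * (q n x).coeff (n - j) * (q n x).coeff (2 * (n - k) - (n - j)) =
          ∑ i ∈ (range (2 * k + 1)).image (fun j => n - j),
            (-1) ^ i * (q n x).coeff i * (q n x).coeff (2 * (n - k) - i) := by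
        rw [sum_image]
        intro a ha b hb hab
        simp only [coe_range, Set.mem_Iio] at ha hb
        simp only at hab
        omega
      rw [himg]
      symm
      apply sum_subset
      · intro i hi
        simp only [mem_image, mem_range] at hi ⊢
        obtain ⟨j, hj, rfl⟩ := hi
        omega
      · intro i hi hi'
        simp only [mem_image, mem_range, not_exists, not_and] at hi hi'
        by_cases h3 : n < i
        · rw [q_coeff n x i, Nat.choose_eq_zero_of_lt h3]; simp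
        · have h4 : n < 2 * (n - k) - i := by
            by_contra h5
            exact hi' (n - i) (by omega) (by omega)
          rw [q_coeff n x (2 * (n - k) - i), Nat.choose_eq_zero_of_lt h4]; simp
    have h3 : beta n k x = (-1) ^ (n - k) * ∑ j ∈ range (2 * k + 1),
          (-1) ^ (n - j) * (q n x).coeff (n - j) * (q n x).coeff (2 * (n - k) - (n - j)) := by
      unfold beta
      rw [mul_sum, mul_sum]
      refine sum_congr rfl fun j hj => ?_
      rw [mem_range] at hj
      have e1 : n - (n - j) = j := by omega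
      have e2 : 2 * (n - k) - (n - j) = n - (2 * k - j) := by omega
      have e3 : n - (n - (2 * k - j)) = 2 * k - j := by omega
      rw [q_coeff, q_coeff, e1, e2, e3, Nat.choose_symm (by omega), Nat.choose_symm (by omega)]
      have e4 : ((-1 : ℝ)) ^ (n - k) * (-1) ^ (n - j) = (-1) ^ k * (-1) ^ j := by
        have h5 : ((-1 : ℝ)) ^ (n - k) * (-1) ^ (n - j) * ((-1) ^ k * (-1) ^ j) = 1 := by
          rw [← pow_add, ← pow_add, ← pow_add]
          have : n - k + (n - j) + (k + j) = 2 * n := by omega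
          rw [this, pow_mul]; simp
        have h6 : ((-1 : ℝ) ^ k * (-1) ^ j) * ((-1) ^ k * (-1) ^ j) = 1 := by
          rw [← pow_add, ← pow_add]
          have : k + j + (k + j) = 2 * (k + j) := by omega
          rw [this, pow_mul]; simp
        have h7 : ((-1 : ℝ) ^ k * (-1) ^ j) ≠ 0 := by
          intro h8; rw [h8] at h6; norm_num at h6
        exact mul_right_cancel₀ h7 (h5.trans h6.symm)
      calc (-1 : ℝ) ^ k * ((-1) ^ j * (n.choose j : ℝ) * (n.choose (2 * k - j) : ℝ) * nb n j x *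
            nb n (2 * k - j) x)
          = ((-1) ^ k * (-1) ^ j) * ((n.choose j : ℝ) * (n.choose (2 * k - j) : ℝ) * nb n j x *
            nb n (2 * k - j) x) := by ring
        _ = _ := by rw [← e4]; ring
    rw [h3, ← h2, h1, ← mul_assoc, ← mul_pow, neg_one_mul, neg_neg, one_pow, one_mul]
    exact hW (n - k) (by omega) (by omega)

end Pool.Agent.Results.MP_6eafb7_an.StrictPositivity
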